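import Pool.Agent.N801.PF.Base

/-!
Project PF (helper801), subtask PF/PB: the pointwise bound (helper769).
-/

set_option autoImplicit false

open Finset

namespace Pool.Agent.N769.PF

open Pool.Agent.N801.PF

/-- the number of primes `> y` dividing `m < y ^ (k + 1)` is at most `k` -/
lemma card_large_primes (y m k : ℕ) (hy : 2 ≤ y) (hm : 1 ≤ m) (hmk : m < y ^ (k + 1))
    (P : Finset ℕ) (hP : ∀ p ∈ P, p.Prime ∧ y < p ∧ p ∣ m) : P.card ≤ k := by
  have h1 : ∏ p ∈ P, p ∣ m := by
    apply Finset.prod_primes_dvd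
    · intro p hp; exact (hP p hp).1.prime
    · intro p hp; exact (hP p hp).2.2
  have h2 : y ^ P.card ≤ ∏ p ∈ P, p := by
    apply Finset.pow_card_le_prod
    intro p hp
    exact (hP p hp).2.1.le
  have h3 : y ^ P.card < y ^ (k + 1) := lt_of_le_of_lt (h2.trans (Nat.le_of_dvd hm h1)) hmk
  have h4 := (Nat.pow_lt_pow_iff_right (by omega : 1 < y)).1 h3
  omega

/-- the local sum -/
lemma local_sum (y Z k m : ℕ) (R : Finset ℕ) (al : ℕ → ℝ) (hR : Adm y Z R) (hy : 2 ≤ y)
    (hal : ∀ ρ ∈ R, 0 ≤ al ρ ∧ al ρ ≤ 1 / (ρ : ℝ)) (hm : 1 ≤ m) (hmk : m < y ^ (k + 1)) :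
    ∑ ρ ∈ R, al ρ * |ph ρ m| ≤ 2 ^ k * EE y Z 1 := by
  classical
  set h : ℕ → ℝ := fun p => if p ∣ m then 1 else 1 / (p : ℝ) with hh
  have hnn : ∀ p, 0 ≤ h p := by
    intro p
    simp only [hh]
    split_ifs <;> positivity
  have h1 : ∀ ρ ∈ R, al ρ * |ph ρ m| ≤ ∏ p ∈ ρ.primeFactors, h p := by
    intro ρ hρ
    obtain ⟨ha, hb⟩ := hal ρ hρ
    obtain ⟨hc, -, hsq, -⟩ := hR ρ hρ
    have e1 : |ph ρ m| ≤ ∏ p ∈ ρ.primeFactors, (if p ∣ m then (p : ℝ) else 1) := by
      rw [ph, Finset.abs_prod]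
      apply Finset.prod_le_prod
      · intro p _; exact abs_nonneg _
      · intro p hp
        have hp1 : (1 : ℝ) ≤ (p : ℝ) := by
          exact_mod_cast (Nat.prime_of_mem_primeFactors hp).one_lt.le
        split_ifs
        · rw [abs_le]; constructor <;> linarith
        · simp
    have e2 : (ρ : ℝ) = ∏ p ∈ ρ.primeFactors, (p : ℝ) := by
      rw [← Nat.cast_prod, Nat.prod_primeFactors_of_squarefree hsq]
    calc al ρ * |ph ρ m| ≤ 1 / (ρ : ℝ) * ∏ p ∈ ρ.primeFactors, (if p ∣ m then (p : ℝ) else 1) := by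
          gcongr
      _ = ∏ p ∈ ρ.primeFactors, h p := by
          conv_lhs => rw [e2]
          rw [one_div, ← Finset.prod_inv_distrib, ← Finset.prod_mul_distrib]
          apply Finset.prod_congr rfl
          intro p hp
          have hp1 : (p : ℝ) ≠ 0 := by
            exact_mod_cast (Nat.prime_of_mem_primeFactors hp).ne_zero
          simp only [hh]
          split_ifs
          · exact inv_mul_cancel₀ hp1
          · rw [mul_one, one_div]
  have h2 : ∑ ρ ∈ R, ∏ p ∈ ρ.primeFactors, h p ≤ ∏ p ∈ prs y Z, (1 + h p) := by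
    rw [Finset.prod_one_add]
    have hinj : Set.InjOn Nat.primeFactors (R : Set ℕ) := by
      intro a ha b hb hab
      rw [← Nat.prod_primeFactors_of_squarefree (hR a ha).2.2.1,
        ← Nat.prod_primeFactors_of_squarefree (hR b hb).2.2.1, hab]
    rw [← Finset.sum_image (f := fun T : Finset ℕ => ∏ p ∈ T, h p) hinj]
    apply Finset.sum_le_sum_of_subset_of_nonneg
    · intro T hT
      rw [mem_image] at hT
      obtain ⟨ρ, hρ, rfl⟩ := hT
      exact mem_powerset.2 (hR.primeFactors hρ)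
    · intro T _ _
      exact Finset.prod_nonneg fun p _ => hnn p
  have h3 : ∏ p ∈ prs y Z, (1 + h p) ≤
      (∏ p ∈ prs y Z, (if p ∣ m then (2 : ℝ) else 1)) * EE y Z 1 := by
    rw [EE, ← Finset.prod_mul_distrib]
    apply Finset.prod_le_prod
    · intro p _
      have := hnn p
      linarith
    · intro p _
      have hp1 : (0 : ℝ) ≤ 1 / (p : ℝ) := by positivity
      simp only [hh]
      split_ifs
      · push_cast; linarith
      · push_cast; linarith
  have h4 : (∏ p ∈ prs y Z, (if p ∣ m then (2 : ℝ) else 1)) ≤ 2 ^ k := by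
    rw [Finset.prod_ite, Finset.prod_const, Finset.prod_const_one, mul_one]
    apply pow_le_pow_right₀ (by norm_num)
    apply card_large_primes y m k hy hm hmk
    intro p hp
    rw [mem_filter, mem_prs] at hp
    exact ⟨hp.1.2, hp.1.1.1, hp.2⟩
  have hE : 0 ≤ EE y Z 1 := by
    rw [EE]
    exact Finset.prod_nonneg fun p _ => by positivity
  calc ∑ ρ ∈ R, al ρ * |ph ρ m| ≤ ∑ ρ ∈ R, ∏ p ∈ ρ.primeFactors, h p := Finset.sum_le_sum h1
    _ ≤ _ := h2
    _ ≤ _ := h3
    _ ≤ _ := by gcongr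

theorem pb : PB := by
  intro ι _ _ H y Z Y k₀ k₂ n R al pos E hR hy hal hk hpos hE hEE
  classical
  set g : ι → ℕ → ℝ := fun i ρ => al ρ * (if act H y (n + pos i) then |ph ρ (n + pos i)| else 0)
    with hg
  have hR1 : ∀ ρ ∈ R, 1 < ρ := fun ρ hρ => (hR ρ hρ).1
  have hgnn : ∀ i, ∀ ρ ∈ R, 0 ≤ g i ρ := by
    intro i ρ hρ
    simp only [hg]
    apply mul_nonneg (hal ρ hρ).1
    split_ifs
    · exact abs_nonneg _
    · exact le_refl _
  have hterm : ∀ r ∈ Tu ι R Y, |cf al r * Fr H y pos r n| =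
      ∏ i, (if r i = 1 then 1 else g i (r i)) := by
    intro r hr
    rw [mem_Tu] at hr
    rw [cf, Fr, ← Finset.prod_mul_distrib, Finset.abs_prod]
    apply Finset.prod_congr rfl
    intro i _
    by_cases h1 : r i = 1
    · rw [if_pos h1, if_pos h1, if_pos h1]; simp
    · have h2 : r i ∈ R := (hr.1 i).resolve_left h1
      rw [if_neg h1, if_neg h1, if_neg h1, abs_mul, abs_neg, abs_of_nonneg (hal _ h2).1]
      simp only [hg]
      congr 1
      split_ifs
      · rfl
      · simp
  have hzero : ∀ r ∈ Tu ι R Y, ¬ (sp r ⊆ AA H y pos n) →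
      ∏ i, (if r i = 1 then 1 else g i (r i)) = 0 := by
    intro r hr hns
    rw [Finset.not_subset] at hns
    obtain ⟨i, hi, hi2⟩ := hns
    apply Finset.prod_eq_zero (Finset.mem_univ i)
    rw [mem_sp] at hi
    rw [if_neg hi]
    simp only [hg]
    rw [if_neg, mul_zero]
    intro h
    apply hi2
    rw [AA, mem_filter]
    exact ⟨mem_univ _, h⟩
  have hloc : ∀ i, ∑ ρ ∈ R, g i ρ ≤ E := by
    intro i
    refine le_trans ?_ hEE
    refine le_trans ?_ (local_sum y Z k₂ (n + pos i) R al hR hy hal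
      (by have := (hpos i).1; omega) (hpos i).2)
    apply Finset.sum_le_sum
    intro ρ hρ
    simp only [hg]
    apply mul_le_mul_of_nonneg_left _ (hal ρ hρ).1
    split_ifs
    · exact le_refl _
    · exact abs_nonneg _
  set SS := (AA H y pos n).powerset.filter (fun S => S.card ≤ k₀) with hSS
  calc |∑ r ∈ Tu ι R Y, cf al r * Fr H y pos r n|
      ≤ ∑ r ∈ Tu ι R Y, |cf al r * Fr H y pos r n| := Finset.abs_sum_le_sum_abs _ _
    _ = ∑ r ∈ Tu ι R Y, ∏ i, (if r i = 1 then 1 else g i (r i)) := Finset.sum_congr rfl hterm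
    _ = ∑ r ∈ (Tu ι R Y).filter (fun r => sp r ⊆ AA H y pos n),
          ∏ i, (if r i = 1 then 1 else g i (r i)) := by
        rw [Finset.sum_filter]
        apply Finset.sum_congr rfl
        intro r hr
        split_ifs with h
        · rfl
        · exact hzero r hr h
    _ ≤ ∑ S ∈ SS, ∏ i ∈ S, ∑ ρ ∈ R, g i ρ := by
        apply gen_supp R hR1 g hgnn
        · intro r hr
          rw [mem_filter, mem_Tu] at hr
          exact hr.1.1
        · intro r hr
          rw [mem_filter] at hr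
          rw [hSS, mem_filter, mem_powerset]
          exact ⟨hr.2, hk r hr.1⟩
    _ ≤ ∑ S ∈ SS, E ^ k₀ := by
        apply Finset.sum_le_sum
        intro S hS
        rw [hSS, mem_filter] at hS
        calc ∏ i ∈ S, ∑ ρ ∈ R, g i ρ ≤ ∏ i ∈ S, E := by
              apply Finset.prod_le_prod
              · intro i _
                exact Finset.sum_nonneg (hgnn i)
              · intro i _
                exact hloc i
          _ = E ^ S.card := by rw [Finset.prod_const]
          _ ≤ E ^ k₀ := pow_le_pow_right₀ hE hS.2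
    _ = E ^ k₀ * (SS.card : ℝ) := by
        rw [Finset.sum_const, nsmul_eq_mul, mul_comm]

end Pool.Agent.N769.PF
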