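import Pool.Agent.N801.PF.Base

/-!
Project PF (helper801), subtask PF/SC: the absolute sum of the fundamental lemma (helper769).
-/

set_option autoImplicit false

open Finset

namespace Pool.Agent.N769.PF

open Pool.Agent.N801.PF

variable {ι α : Type} [Fintype ι] [DecidableEq ι] [DecidableEq α]

/-- the sum over the functions with a given support -/
lemma sum_supp_gen (e : α) (D : Finset α) (heD : e ∉ D) (G : α → ℝ) (S : Finset ι) :
    ∑ q ∈ Fintype.piFinset (fun i => if i ∈ S then D else {e}),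
      ∏ i, (if q i = e then 1 else G (q i)) = (∑ d ∈ D, G d) ^ S.card := by
  have h0 : ∑ q ∈ Fintype.piFinset (fun i => if i ∈ S then D else {e}),
      ∏ i, (if q i = e then 1 else G (q i)) =
      ∏ i, ∑ x ∈ (if i ∈ S then D else {e}), (if x = e then 1 else G x) := by
    rw [Finset.prod_univ_sum]
  rw [h0, ← Finset.prod_subset (Finset.subset_univ S)]
  · rw [← Finset.prod_const]
    apply Finset.prod_congr rfl
    intro i hi
    rw [if_pos hi]
    apply Finset.sum_congr rfl
    intro d hd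
    rw [if_neg]
    rintro rfl
    exact heD hd
  · intro i _ hi
    rw [if_neg hi, Finset.sum_singleton, if_pos rfl]

/-- all functions with a support of at most `k` elements -/
lemma gen_supp_small_gen (e : α) (D : Finset α) (heD : e ∉ D) (G : α → ℝ) (hG : ∀ d ∈ D, 0 ≤ G d)
    (F : Finset (ι → α)) (hF : ∀ q ∈ F, ∀ i, q i = e ∨ q i ∈ D) (k : ℕ)
    (hk : ∀ q ∈ F, (univ.filter (fun i => q i ≠ e)).card ≤ k) :
    ∑ q ∈ F, ∏ i, (if q i = e then 1 else G (q i)) ≤
      (1 + (Fintype.card ι : ℝ) * ∑ d ∈ D, G d) ^ k := by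
  have hnn : 0 ≤ ∑ d ∈ D, G d := Finset.sum_nonneg hG
  have h1 : ∑ q ∈ F, ∏ i, (if q i = e then 1 else G (q i)) ≤
      ∑ S ∈ (univ : Finset ι).powerset.filter (fun T => T.card ≤ k), (∑ d ∈ D, G d) ^ S.card := by
    rw [← Finset.sum_fiberwise_of_maps_to (g := fun q : ι → α => univ.filter (fun i => q i ≠ e))
      (t := (univ : Finset ι).powerset.filter (fun T => T.card ≤ k))
      (fun q hq => mem_filter.2 ⟨mem_powerset.2 (subset_univ _), hk q hq⟩)]
    apply Finset.sum_le_sum
    intro S _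
    rw [← sum_supp_gen e D heD G S]
    apply Finset.sum_le_sum_of_subset_of_nonneg
    · intro q hq
      rw [mem_filter] at hq
      rw [Fintype.mem_piFinset]
      intro i
      have h2 := hF q hq.1 i
      have h3 : i ∈ S ↔ q i ≠ e := by
        rw [← hq.2, mem_filter]
        simp
      split_ifs with h
      · exact h2.resolve_left (h3.1 h)
      · rw [mem_singleton]
        by_contra h4
        exact h (h3.2 h4)
    · intro q hq _
      rw [Fintype.mem_piFinset] at hq
      apply Finset.prod_nonneg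
      intro i _
      have h2 := hq i
      split_ifs with h3
      · norm_num
      · apply hG
        split_ifs at h2 with h4
        · exact h2
        · rw [mem_singleton] at h2
          exact absurd h2 h3
  refine h1.trans ?_
  have := sum_small (univ : Finset ι) k (∑ d ∈ D, G d) hnn
  rwa [Finset.card_univ] at this

/-- `al` extended by `1` at `1` -/
noncomputable def als (al : ℕ → ℝ) (ρ : ℕ) : ℝ := if ρ = 1 then 1 else al ρ

/-- the weight of a pair -/
noncomputable def GG (al : ℕ → ℝ) (d : ℕ × ℕ) : ℝ :=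
  als al d.1 * als al d.2 *
    ((2 : ℝ) ^ (d.1.primeFactors.card + d.2.primeFactors.card) * (Nat.gcd d.1 d.2 : ℝ))

lemma GG_one (al : ℕ → ℝ) : GG al (1, 1) = 1 := by
  simp [GG, als]

lemma sum_GG (al : ℕ → ℝ) (R : Finset ℕ) (hR : ∀ ρ ∈ R, 1 < ρ) :
    ∑ d ∈ ((insert 1 R) ×ˢ (insert 1 R)).erase (1, 1), GG al d = XX R al := by
  have h1 : (1 : ℕ) ∉ R := fun h => by have := hR 1 h; omega
  have hals : ∀ ρ ∈ R, als al ρ = al ρ := by
    intro ρ hρ
    rw [als, if_neg]
    have := hR ρ hρ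
    omega
  have h2 : ∑ d ∈ ((insert 1 R) ×ˢ (insert 1 R)).erase (1, 1), GG al d + GG al (1, 1) =
      ∑ d ∈ (insert 1 R) ×ˢ (insert 1 R), GG al d := by
    apply Finset.sum_erase_add
    simp
  have h3 : ∑ d ∈ (insert 1 R) ×ˢ (insert 1 R), GG al d = 1 + XX R al := by
    rw [Finset.sum_product, Finset.sum_insert h1, Finset.sum_insert h1, GG_one]
    have e1 : ∑ x ∈ R, GG al (1, x) = ∑ ρ ∈ R, al ρ * 2 ^ ρ.primeFactors.card := by
      apply Finset.sum_congr rfl
      intro ρ hρ
      have := hR ρ hρ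
      have h7 : ρ ≠ 1 := by omega
      simp [GG, als, h7]
    have e2 : ∑ x ∈ R, ∑ y ∈ insert 1 R, GG al (x, y) =
        ∑ ρ ∈ R, al ρ * 2 ^ ρ.primeFactors.card +
        ∑ ρ ∈ R, ∑ ρ' ∈ R, al ρ * al ρ' *
      ((2 : ℝ) ^ (ρ.primeFactors.card + ρ'.primeFactors.card) * (Nat.gcd ρ ρ' : ℝ)) := by
      rw [← Finset.sum_add_distrib]
      apply Finset.sum_congr rfl
      intro ρ hρ
      rw [Finset.sum_insert h1]
      congr 1
      · have := hR ρ hρ
        have h7 : ρ ≠ 1 := by omega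
        simp [GG, als, h7]
      · apply Finset.sum_congr rfl
        intro ρ' hρ'
        simp only [GG]
        rw [hals ρ hρ, hals ρ' hρ']
    rw [e1, e2, XX]
    ring
  rw [GG_one] at h2
  linarith

theorem sc : SC := by
  intro ι _ _ Y k₀ R al P T₀ hP hR hk
  classical
  have hR1 : ∀ ρ ∈ R, 1 < ρ := fun ρ hρ => (hR ρ hρ).1
  have hals0 : ∀ ρ ∈ insert 1 R, 0 ≤ als al ρ := by
    intro ρ hρ
    rw [als]
    split_ifs with h
    · norm_num
    · rw [mem_insert] at hρ
      exact (hR ρ (hρ.resolve_left h)).2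
  set D := ((insert 1 R) ×ˢ (insert 1 R)).erase ((1, 1) : ℕ × ℕ) with hD
  have hGnn : ∀ d ∈ D, 0 ≤ P * GG al d := by
    intro d hd
    rw [hD, mem_erase, mem_product] at hd
    have h1 := hals0 _ hd.2.1
    have h2 := hals0 _ hd.2.2
    rw [GG]
    positivity
  set T := (Tu ι R Y).filter (fun r => Disjoint (sp r) T₀) with hT
  rw [← Finset.sum_product']
  -- the terms
  have hterm : ∀ x ∈ T ×ˢ T, |cf al x.1| * |cf al x.2| *
      (P ^ (sp x.1 ∪ sp x.2 ∪ T₀).card * BB x.1 x.2) =
      P ^ T₀.card * ∏ i, (if (x.1 i, x.2 i) = ((1, 1) : ℕ × ℕ) then 1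
        else P * GG al (x.1 i, x.2 i)) := by
    rintro ⟨r, r'⟩ hx
    rw [mem_product, hT, mem_filter, mem_filter] at hx
    obtain ⟨⟨hr, hd⟩, ⟨hr', hd'⟩⟩ := hx
    simp only at hr hd hr' hd' ⊢
    rw [mem_Tu] at hr hr'
    have habs : ∀ r : ι → ℕ, (∀ i, r i = 1 ∨ r i ∈ R) → |cf al r| = ∏ i, als al (r i) := by
      intro r hr
      rw [cf, Finset.abs_prod]
      apply Finset.prod_congr rfl
      intro i _
      rw [als]
      split_ifs with h
      · simp
      · rw [abs_neg, abs_of_nonneg (hR _ ((hr i).resolve_left h)).2]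
    have hcard : (sp r ∪ sp r' ∪ T₀).card = T₀.card + (sp r ∪ sp r').card := by
      rw [Finset.card_union_of_disjoint, add_comm]
      rw [Finset.disjoint_union_left]
      exact ⟨hd, hd'⟩
    have hpow : P ^ (sp r ∪ sp r').card =
        ∏ i, (if (r i, r' i) = ((1, 1) : ℕ × ℕ) then 1 else P) := by
      rw [Finset.prod_ite, Finset.prod_const_one, one_mul, Finset.prod_const]
      congr 2
      ext i
      simp only [mem_union, mem_sp, mem_filter, mem_univ, true_and, Prod.mk.injEq]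
      tauto
    rw [habs r hr.1, habs r' hr'.1, hcard, pow_add, hpow, BB]
    rw [show ∀ a b c d e : ℝ, a * b * (c * d * e) = c * (a * b * d * e) from fun a b c d e => by ring]
    congr 1
    rw [← Finset.prod_mul_distrib, ← Finset.prod_mul_distrib, ← Finset.prod_mul_distrib]
    apply Finset.prod_congr rfl
    intro i _
    by_cases h : (r i, r' i) = ((1, 1) : ℕ × ℕ)
    · rw [if_pos h, if_pos h]
      rw [Prod.mk.injEq] at h
      rw [h.1, h.2]
      simp [als]
    · rw [if_neg h, if_neg h, GG]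
      ring
  rw [Finset.sum_congr rfl hterm, ← Finset.mul_sum]
  apply mul_le_mul_of_nonneg_left _ (pow_nonneg hP _)
  -- pass to pair valued functions
  set Φ : (ι → ℕ) × (ι → ℕ) → (ι → ℕ × ℕ) := fun x i => (x.1 i, x.2 i) with hΦ
  have hinj : Set.InjOn Φ ((T ×ˢ T : Finset ((ι → ℕ) × (ι → ℕ))) : Set ((ι → ℕ) × (ι → ℕ))) := by
    rintro ⟨a, b⟩ _ ⟨c, d⟩ _ h
    have h' : ∀ i, (a i, b i) = (c i, d i) := fun i => congrFun h i
    ext i
    · exact (Prod.mk.inj (h' i)).1
    · exact (Prod.mk.inj (h' i)).2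
  have hsum : ∑ x ∈ T ×ˢ T, ∏ i, (if (x.1 i, x.2 i) = ((1, 1) : ℕ × ℕ) then 1
        else P * GG al (x.1 i, x.2 i)) =
      ∑ q ∈ (T ×ˢ T).image Φ, ∏ i, (if q i = ((1, 1) : ℕ × ℕ) then 1 else P * GG al (q i)) := by
    rw [Finset.sum_image hinj]
  rw [hsum]
  have hXX : (Fintype.card ι : ℝ) * (P * XX R al) =
      (Fintype.card ι : ℝ) * ∑ d ∈ D, P * GG al d := by
    rw [← Finset.mul_sum, hD, sum_GG al R hR1]
  rw [hXX]
  refine gen_supp_small_gen ((1, 1) : ℕ × ℕ) D (by rw [hD]; simp) (fun d => P * GG al d) hGnn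
    ((T ×ˢ T).image Φ) ?_ (2 * k₀) ?_
  · intro q hq i
    rw [mem_image] at hq
    obtain ⟨⟨r, r'⟩, hx, rfl⟩ := hq
    rw [mem_product, hT, mem_filter, mem_filter] at hx
    obtain ⟨⟨hr, -⟩, ⟨hr', -⟩⟩ := hx
    simp only at hr hr'
    rw [mem_Tu] at hr hr'
    by_cases h : Φ (r, r') i = ((1, 1) : ℕ × ℕ)
    · left; exact h
    · right
      rw [hD, mem_erase]
      refine ⟨h, ?_⟩
      rw [hΦ]
      simp only [mem_product, mem_insert]
      exact ⟨hr.1 i, hr'.1 i⟩
  · intro q hq
    rw [mem_image] at hq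
    obtain ⟨⟨r, r'⟩, hx, rfl⟩ := hq
    rw [mem_product, hT, mem_filter, mem_filter] at hx
    obtain ⟨⟨hr, -⟩, ⟨hr', -⟩⟩ := hx
    simp only at hr hr'
    have h1 : univ.filter (fun i => Φ (r, r') i ≠ ((1, 1) : ℕ × ℕ)) ⊆ sp r ∪ sp r' := by
      intro i hi
      rw [mem_filter] at hi
      rw [mem_union, mem_sp, mem_sp]
      by_contra h
      push Not at h
      apply hi.2
      rw [hΦ]
      simp only [h.1, h.2]
    calc _ ≤ (sp r ∪ sp r').card := Finset.card_le_card h1
      _ ≤ (sp r).card + (sp r').card := Finset.card_union_le _ _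
      _ ≤ 2 * k₀ := by have := hk r hr; have := hk r' hr'; omega

end Pool.Agent.N769.PF
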